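import Mathlib

/-!
# The `ℓ¹` norm on the group algebra of an abelian group
-/

set_option autoImplicit false
set_option linter.unusedSectionVars false

namespace Pool.Agent.KS6_25.AB

open Finset AddMonoidAlgebra

variable {G : Type*} [AddCommGroup G]

/-- the `ℓ¹` norm -/
noncomputable def nrm (x : AddMonoidAlgebra ℝ G) : ℝ := ∑ y ∈ x.coeff.support, |x.coeff y|

theorem nrm_eq (x : AddMonoidAlgebra ℝ G) {Y : Finset G} (h : x.coeff.support ⊆ Y) :
    nrm x = ∑ y ∈ Y, |x.coeff y| := by
  unfold nrm
  apply Finset.sum_subset h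
  intro y _ hy
  rw [Finsupp.notMem_support_iff.1 hy, abs_zero]

theorem nrm_nonneg (x : AddMonoidAlgebra ℝ G) : 0 ≤ nrm x := Finset.sum_nonneg fun _ _ => abs_nonneg _

theorem nrm_zero : nrm (0 : AddMonoidAlgebra ℝ G) = 0 := by simp [nrm]

theorem nrm_add (x y : AddMonoidAlgebra ℝ G) : nrm (x + y) ≤ nrm x + nrm y := by
  classical
  have h1 : (x + y).coeff.support ⊆ x.coeff.support ∪ y.coeff.support := by
    rw [coeff_add]; exact Finsupp.support_add
  rw [nrm_eq _ h1, nrm_eq x subset_union_left, nrm_eq y subset_union_right, ← Finset.sum_add_distrib]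
  apply Finset.sum_le_sum
  intro g _
  rw [coeff_add, Finsupp.add_apply]
  exact abs_add_le _ _

theorem nrm_sum {ι : Type*} (s : Finset ι) (f : ι → AddMonoidAlgebra ℝ G) :
    nrm (∑ i ∈ s, f i) ≤ ∑ i ∈ s, nrm (f i) := by
  classical
  induction s using Finset.induction_on with
  | empty => simp [nrm_zero]
  | insert a s ha ih =>
    rw [Finset.sum_insert ha, Finset.sum_insert ha]
    exact (nrm_add _ _).trans (by gcongr)

theorem nrm_smul (c : ℝ) (x : AddMonoidAlgebra ℝ G) : nrm (c • x) = |c| * nrm x := by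
  have h1 : (c • x).coeff.support ⊆ x.coeff.support := by
    rw [coeff_smul]; exact Finsupp.support_smul
  rw [nrm_eq _ h1, nrm, Finset.mul_sum]
  apply Finset.sum_congr rfl
  intro g _
  rw [coeff_smul, Finsupp.smul_apply, smul_eq_mul, abs_mul]

theorem nrm_neg (x : AddMonoidAlgebra ℝ G) : nrm (-x) = nrm x := by
  have : -x = (-1 : ℝ) • x := by simp
  rw [this, nrm_smul]; simp

theorem nrm_single (g : G) (a : ℝ) : nrm (single g a : AddMonoidAlgebra ℝ G) = |a| := by
  classical
  rw [nrm_eq (Y := {g})]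
  · simp
  · rw [coeff_single]; exact Finsupp.support_single_subset

theorem nrm_mul_single (x : AddMonoidAlgebra ℝ G) (g : G) (a : ℝ) :
    nrm (x * single g a) = nrm x * |a| := by
  classical
  have h1 : (x * single g a).coeff.support ⊆ x.coeff.support.image (fun y => y + g) := by
    intro y hy
    rw [Finsupp.mem_support_iff, coeff_mul_single_apply] at hy
    rw [Finset.mem_image]
    refine ⟨y + -g, ?_, by abel⟩
    rw [Finsupp.mem_support_iff]
    exact left_ne_zero_of_mul hy
  rw [nrm_eq _ h1, nrm, Finset.sum_image (by intro a _ b _ h; exact add_right_cancel h), Finset.sum_mul]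
  apply Finset.sum_congr rfl
  intro y _
  rw [coeff_mul_single_apply, abs_mul]
  congr 3
  abel

theorem eq_sum_single (x : AddMonoidAlgebra ℝ G) :
    x = ∑ y ∈ x.coeff.support, single y (x.coeff y) := by
  apply coeff_injective
  rw [coeff_sum]
  simp only [coeff_single]
  exact (Finsupp.sum_single x.coeff).symm

theorem nrm_mul (x y : AddMonoidAlgebra ℝ G) : nrm (x * y) ≤ nrm x * nrm y := by
  have h1 : x * y = ∑ g ∈ y.coeff.support, x * single g (y.coeff g) := by
    conv_lhs => rw [eq_sum_single y]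
    rw [Finset.mul_sum]
  rw [h1]
  refine (nrm_sum _ _).trans (le_of_eq ?_)
  simp only [nrm_mul_single]
  rw [← Finset.mul_sum]
  rfl

theorem nrm_one : nrm (1 : AddMonoidAlgebra ℝ G) = 1 := by
  rw [AddMonoidAlgebra.one_def, nrm_single, abs_one]

theorem nrm_pow (x : AddMonoidAlgebra ℝ G) (k : ℕ) : nrm (x ^ k) ≤ nrm x ^ k := by
  induction k with
  | zero => simp [nrm_one]
  | succ k ih =>
    rw [pow_succ, pow_succ]
    exact (nrm_mul _ _).trans (mul_le_mul_of_nonneg_right ih (nrm_nonneg _))

/-- the sum of the coefficients -/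
noncomputable def tot (x : AddMonoidAlgebra ℝ G) : ℝ := ∑ y ∈ x.coeff.support, x.coeff y

theorem tot_eq (x : AddMonoidAlgebra ℝ G) {Y : Finset G} (h : x.coeff.support ⊆ Y) :
    tot x = ∑ y ∈ Y, x.coeff y := by
  unfold tot
  apply Finset.sum_subset h
  intro y _ hy
  exact Finsupp.notMem_support_iff.1 hy

theorem tot_add (x y : AddMonoidAlgebra ℝ G) : tot (x + y) = tot x + tot y := by
  classical
  have h1 : (x + y).coeff.support ⊆ x.coeff.support ∪ y.coeff.support := by
    rw [coeff_add]; exact Finsupp.support_add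
  rw [tot_eq _ h1, tot_eq x subset_union_left, tot_eq y subset_union_right, ← Finset.sum_add_distrib]
  apply Finset.sum_congr rfl
  intro g _
  rw [coeff_add, Finsupp.add_apply]

theorem tot_smul (c : ℝ) (x : AddMonoidAlgebra ℝ G) : tot (c • x) = c * tot x := by
  have h1 : (c • x).coeff.support ⊆ x.coeff.support := by
    rw [coeff_smul]; exact Finsupp.support_smul
  rw [tot_eq _ h1, tot, Finset.mul_sum]
  apply Finset.sum_congr rfl
  intro g _
  rw [coeff_smul, Finsupp.smul_apply, smul_eq_mul]

theorem tot_mul_single (x : AddMonoidAlgebra ℝ G) (g : G) (a : ℝ) :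
    tot (x * single g a) = tot x * a := by
  classical
  have h1 : (x * single g a).coeff.support ⊆ x.coeff.support.image (fun y => y + g) := by
    intro y hy
    rw [Finsupp.mem_support_iff, coeff_mul_single_apply] at hy
    rw [Finset.mem_image]
    refine ⟨y + -g, ?_, by abel⟩
    rw [Finsupp.mem_support_iff]
    exact left_ne_zero_of_mul hy
  rw [tot_eq _ h1, tot, Finset.sum_image (by intro a _ b _ h; exact add_right_cancel h), Finset.sum_mul]
  apply Finset.sum_congr rfl
  intro y _
  rw [coeff_mul_single_apply]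
  congr 2
  abel

/-- nonnegative coefficients -/
def Nn (x : AddMonoidAlgebra ℝ G) : Prop := ∀ y, 0 ≤ x.coeff y

theorem nrm_of_nn {x : AddMonoidAlgebra ℝ G} (h : Nn x) : nrm x = tot x := by
  unfold nrm tot
  exact Finset.sum_congr rfl fun y _ => abs_of_nonneg (h y)

theorem Nn.add {x y : AddMonoidAlgebra ℝ G} (hx : Nn x) (hy : Nn y) : Nn (x + y) := by
  intro g
  rw [coeff_add, Finsupp.add_apply]
  exact add_nonneg (hx g) (hy g)

theorem Nn.smul {c : ℝ} (hc : 0 ≤ c) {x : AddMonoidAlgebra ℝ G} (hx : Nn x) : Nn (c • x) := by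
  intro g
  rw [coeff_smul, Finsupp.smul_apply]
  exact smul_nonneg hc (hx g)

theorem Nn.mul_single {x : AddMonoidAlgebra ℝ G} (hx : Nn x) (g : G) {a : ℝ} (ha : 0 ≤ a) :
    Nn (x * single g a) := by
  intro y
  rw [coeff_mul_single_apply]
  exact mul_nonneg (hx _) ha

end Pool.Agent.KS6_25.AB
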