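import Pool.Agent.KS6_25.AB.A1

/-!
# Convolution powers are almost invariant under a shift with positive overlap
-/

set_option autoImplicit false
set_option linter.unusedSectionVars false

namespace Pool.Agent.KS6_25.AB

open Finset AddMonoidAlgebra

variable {G : Type*} [AddCommGroup G]

/-- `∑ C(m,j) (2j - m)² = m 2^m` -/
theorem var_choose (m : ℕ) :
    ∑ j ∈ range (m + 1), (m.choose j : ℝ) * (2 * (j : ℝ) - m) ^ 2 = (m : ℝ) * 2 ^ m := by
  have key : ∀ m : ℕ, ∑ S ∈ (range m).powerset, (2 * (S.card : ℝ) - (m : ℝ)) ^ 2 =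
      (m : ℝ) * 2 ^ m := by
    intro m
    induction m with
    | zero => simp
    | succ m ih =>
      rw [Finset.range_add_one, Finset.sum_powerset_insert Finset.notMem_range_self]
      have h1 : ∀ S ∈ (range m).powerset, (2 * ((insert m S).card : ℝ) - (m + 1 : ℕ)) ^ 2 =
          (2 * (S.card : ℝ) - m + 1) ^ 2 := by
        intro S hS
        rw [Finset.card_insert_of_notMem (fun h => by
          have := Finset.mem_powerset.1 hS h
          simp at this)]
        push_cast
        ring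
      rw [Finset.sum_congr rfl h1, ← Finset.sum_add_distrib]
      have h2 : ∀ S ∈ (range m).powerset, (2 * (S.card : ℝ) - (m + 1 : ℕ)) ^ 2 +
          (2 * (S.card : ℝ) - m + 1) ^ 2 = 2 * (2 * (S.card : ℝ) - m) ^ 2 + 2 := by
        intro S _
        push_cast
        ring
      rw [Finset.sum_congr rfl h2, Finset.sum_add_distrib, ← Finset.mul_sum, ih]
      simp only [Finset.sum_const, Finset.card_powerset, Finset.card_range]
      push_cast
      ring
  have h := key m
  rw [Finset.sum_powerset_apply_card (fun j => (2 * (j : ℝ) - m) ^ 2)] at h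
  simp only [Finset.card_range, nsmul_eq_mul] at h
  exact h

theorem absdev_choose (m : ℕ) :
    ∑ j ∈ range (m + 1), (m.choose j : ℝ) * |2 * (j : ℝ) - m| ≤ Real.sqrt m * 2 ^ m := by
  have h1 : (∑ j ∈ range (m + 1), (m.choose j : ℝ) * |2 * (j : ℝ) - m|) ^ 2 ≤
      (∑ j ∈ range (m + 1), (m.choose j : ℝ)) *
        ∑ j ∈ range (m + 1), (m.choose j : ℝ) * (2 * (j : ℝ) - m) ^ 2 := by
    have := Finset.sum_sq_le_sum_mul_sum_of_sq_le_mul (range (m + 1))
      (f := fun j => (m.choose j : ℝ)) (g := fun j => (m.choose j : ℝ) * (2 * (j : ℝ) - m) ^ 2)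
      (r := fun j => (m.choose j : ℝ) * |2 * (j : ℝ) - m|)
      (fun _ _ => by positivity) (fun _ _ => by positivity)
      (fun j _ => by
        show ((m.choose j : ℝ) * |2 * (j : ℝ) - m|) ^ 2 ≤ _
        rw [mul_pow, sq_abs]
        apply le_of_eq
        ring)
    exact this
  have h2 : (∑ j ∈ range (m + 1), (m.choose j : ℝ)) = 2 ^ m := by
    exact_mod_cast Nat.sum_range_choose m
  rw [var_choose, h2] at h1
  have h3 : (Real.sqrt m * 2 ^ m) ^ 2 = 2 ^ m * ((m : ℝ) * 2 ^ m) := by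
    rw [mul_pow, Real.sq_sqrt (by positivity)]
    ring
  rw [← h3] at h1
  exact (pow_le_pow_iff_left₀ (Finset.sum_nonneg fun _ _ => by positivity) (by positivity)
    two_ne_zero).1 h1

/-- `(m+1) (C(m,j) - C(m,j-1)) = C(m+1,j) (m + 1 - 2 j)` in the form needed -/
theorem choose_diff (m j : ℕ) :
    ((m : ℝ) + 1) * ((m.choose j : ℝ) - (m.choose (j + 1) : ℝ)) =
      ((m + 1).choose (j + 1) : ℝ) * (2 * ((j + 1 : ℕ) : ℝ) - (m + 1 : ℕ)) := by
  have h1 : ((m + 1).choose (j + 1) : ℝ) = (m.choose j : ℝ) + (m.choose (j + 1) : ℝ) := by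
    exact_mod_cast Nat.choose_succ_succ m j
  have h2 : ((m : ℝ) + 1) * (m.choose j : ℝ) = ((m + 1).choose (j + 1) : ℝ) * ((j : ℝ) + 1) := by
    have := Nat.add_one_mul_choose_eq m j
    exact_mod_cast this
  push_cast
  rw [h1] at h2 ⊢
  nlinarith [h2]

/-- the norm of `(1 + T^h)^k (T^h - 1)` -/
theorem nrm_binom (h : G) (k : ℕ) :
    nrm ((1 + single h (1 : ℝ)) ^ k * (single h (1 : ℝ) - 1)) ≤ 2 ^ (k + 1) / Real.sqrt (k + 1) := by
  set T : AddMonoidAlgebra ℝ G := single h (1 : ℝ) with hT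
  have hTp : ∀ j : ℕ, T ^ j = single (j • h) (1 : ℝ) := by
    intro j
    rw [hT, AddMonoidAlgebra.single_pow, one_pow]
  have hnT : ∀ (c : ℝ) (j : ℕ), nrm (c • T ^ j) = |c| := by
    intro c j
    rw [nrm_smul, hTp, nrm_single, abs_one, mul_one]
  -- expansion
  have e1 : (1 + T) ^ k = ∑ j ∈ range (k + 1), (k.choose j : ℝ) • T ^ j := by
    rw [add_comm, add_pow]
    apply Finset.sum_congr rfl
    intro j _
    rw [one_pow, mul_one, ← nsmul_eq_mul', Nat.cast_smul_eq_nsmul]
  have e2 : (1 + T) ^ k * (T - 1) = ∑ j ∈ range (k + 2),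
      (((if j = 0 then 0 else (k.choose (j - 1) : ℝ)) - (k.choose j : ℝ))) • T ^ j := by
    rw [mul_sub, mul_one, e1, Finset.sum_mul]
    simp only [sub_smul, Finset.sum_sub_distrib]
    congr 1
    · rw [Finset.sum_range_succ' _ (k + 1)]
      simp only [if_true, zero_smul, add_zero, Nat.add_eq_zero_iff, one_ne_zero, and_false, if_false,
        Nat.add_sub_cancel]
      apply Finset.sum_congr rfl
      intro j _
      rw [smul_mul_assoc, pow_succ]
    · rw [Finset.sum_range_succ _ (k + 1)]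
      simp
  rw [e2]
  refine (nrm_sum _ _).trans ?_
  simp only [hnT]
  have hk : (0 : ℝ) < (k : ℝ) + 1 := by positivity
  have e3 : ∀ j ∈ range (k + 2), |(if j = 0 then 0 else (k.choose (j - 1) : ℝ)) - (k.choose j : ℝ)| =
      (((k + 1).choose j : ℝ) * |2 * (j : ℝ) - (k + 1 : ℕ)|) / ((k : ℝ) + 1) := by
    intro j _
    rw [eq_div_iff hk.ne']
    rcases j with _ | j
    · simp
      rw [abs_of_nonpos (by linarith)]
      ring
    · simp only [Nat.add_eq_zero_iff, one_ne_zero, and_false, if_false, Nat.add_sub_cancel]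
      have := choose_diff k j
      rw [mul_comm, ← abs_of_pos hk, ← abs_mul, this, abs_mul,
        abs_of_nonneg (by positivity : (0 : ℝ) ≤ ((k + 1).choose (j + 1) : ℝ))]
  rw [Finset.sum_congr rfl e3, ← Finset.sum_div]
  have h4 := absdev_choose (k + 1)
  rw [div_le_div_iff₀ hk (by positivity)]
  have h5 : Real.sqrt ((k : ℝ) + 1) * Real.sqrt ((k : ℝ) + 1) = (k : ℝ) + 1 := Real.mul_self_sqrt hk.le
  have h6 : (∑ j ∈ range (k + 1 + 1), ((k + 1).choose j : ℝ) * |2 * (j : ℝ) - ((k + 1 : ℕ) : ℝ)|) ≤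
      Real.sqrt ((k : ℝ) + 1) * 2 ^ (k + 1) := by
    have := h4
    push_cast at this ⊢
    exact this
  calc _ ≤ (Real.sqrt ((k : ℝ) + 1) * 2 ^ (k + 1)) * Real.sqrt ((k : ℝ) + 1) := by
        apply mul_le_mul_of_nonneg_right _ (Real.sqrt_nonneg _)
        exact h6
    _ = 2 ^ (k + 1) * ((k : ℝ) + 1) := by rw [mul_right_comm, h5]; ring

/-- mean of `1 / √(k+1)` for the binomial distribution -/
theorem binom_inv_sqrt (N : ℕ) {p q : ℝ} (hp : 0 < p) (hq : 0 ≤ q) (hpq : p + q = 1) :
    ∑ k ∈ range (N + 1), p ^ k * q ^ (N - k) * (N.choose k : ℝ) * (1 / Real.sqrt ((k : ℝ) + 1)) ≤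
      1 / Real.sqrt (p * (N + 1)) := by
  have h0 : ∑ k ∈ range (N + 1), p ^ k * q ^ (N - k) * (N.choose k : ℝ) = 1 := by
    rw [← add_pow, hpq, one_pow]
  have h1 : ∑ k ∈ range (N + 1), p ^ k * q ^ (N - k) * (N.choose k : ℝ) * (1 / ((k : ℝ) + 1)) ≤
      1 / (p * (N + 1)) := by
    rw [le_div_iff₀ (by positivity), Finset.sum_mul]
    have e : ∀ k ∈ range (N + 1), p ^ k * q ^ (N - k) * (N.choose k : ℝ) * (1 / ((k : ℝ) + 1)) *
        (p * ((N : ℝ) + 1)) = p ^ (k + 1) * q ^ (N + 1 - (k + 1)) * ((N + 1).choose (k + 1) : ℝ) := by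
      intro k _
      have h2 : ((N : ℝ) + 1) * (N.choose k : ℝ) = ((N + 1).choose (k + 1) : ℝ) * ((k : ℝ) + 1) := by
        exact_mod_cast Nat.add_one_mul_choose_eq N k
      have h3 : N + 1 - (k + 1) = N - k := by omega
      rw [h3, pow_succ]
      have hk : (0 : ℝ) < (k : ℝ) + 1 := by positivity
      rw [show p ^ k * q ^ (N - k) * (N.choose k : ℝ) * (1 / ((k : ℝ) + 1)) * (p * ((N : ℝ) + 1)) =
        p ^ k * q ^ (N - k) * p * ((((N : ℝ) + 1) * (N.choose k : ℝ)) / ((k : ℝ) + 1)) by ring, h2,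
        mul_div_assoc, div_self hk.ne']
      ring
    rw [Finset.sum_congr rfl e]
    have h4 : ∑ k ∈ range (N + 1 + 1), p ^ k * q ^ (N + 1 - k) * ((N + 1).choose k : ℝ) = 1 := by
      rw [← add_pow, hpq, one_pow]
    rw [Finset.sum_range_succ' _ (N + 1)] at h4
    have h5 : 0 ≤ p ^ 0 * q ^ (N + 1 - 0) * ((N + 1).choose 0 : ℝ) := by positivity
    linarith
  have h2 : (∑ k ∈ range (N + 1), p ^ k * q ^ (N - k) * (N.choose k : ℝ) *
      (1 / Real.sqrt ((k : ℝ) + 1))) ^ 2 ≤
      (∑ k ∈ range (N + 1), p ^ k * q ^ (N - k) * (N.choose k : ℝ)) *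
      ∑ k ∈ range (N + 1), p ^ k * q ^ (N - k) * (N.choose k : ℝ) * (1 / ((k : ℝ) + 1)) := by
    apply Finset.sum_sq_le_sum_mul_sum_of_sq_le_mul
    · intro k _; positivity
    · intro k _; positivity
    · intro k _
      rw [mul_pow, div_pow, Real.sq_sqrt (by positivity), one_pow]
      apply le_of_eq
      ring
  rw [h0, one_mul] at h2
  have h3 : (1 / Real.sqrt (p * ((N : ℝ) + 1))) ^ 2 = 1 / (p * (N + 1)) := by
    rw [div_pow, Real.sq_sqrt (by positivity), one_pow]
  have h4 := h2.trans (h1.trans h3.ge)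
  exact (pow_le_pow_iff_left₀ (Finset.sum_nonneg fun _ _ => by positivity) (by positivity)
    two_ne_zero).1 h4

/-- **Convolution powers are almost invariant.** -/
theorem nrm_pow_shift (x : AddMonoidAlgebra ℝ G) (hx : Nn x) (hx1 : tot x = 1) (g : G)
    (hg : nrm (x - x * single g 1) ≤ 1 / 2) (N : ℕ) :
    nrm (x ^ N * (1 - single g 1)) ≤ 3 / Real.sqrt (N + 1) := by
  classical
  -- the common part
  set Y : Finset G := x.coeff.support ∪ (x * single g (1 : ℝ)).coeff.support with hY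
  set m : AddMonoidAlgebra ℝ G :=
    ∑ y ∈ Y, single y (min (x.coeff y) (x.coeff (y + -g))) with hm
  have hmc : ∀ y, m.coeff y = min (x.coeff y) (x.coeff (y + -g)) := by
    intro y
    rw [hm, coeff_sum, Finsupp.finsetSum_apply]
    simp only [coeff_single, Finsupp.single_apply]
    rw [Finset.sum_ite_eq' Y y]
    split_ifs with h
    · rfl
    · rw [hY, Finset.mem_union, not_or, Finsupp.notMem_support_iff, Finsupp.notMem_support_iff,
        coeff_mul_single_apply, mul_one] at h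
      rw [h.1, h.2, min_self]
  have hmx : ∀ y, m.coeff y ≤ x.coeff y := fun y => by rw [hmc]; exact min_le_left _ _
  have hmx2 : ∀ y, m.coeff (y + g) ≤ x.coeff y := fun y => by
    rw [hmc]
    refine (min_le_right _ _).trans (le_of_eq ?_)
    congr 1
    abel
  have hmn : Nn m := fun y => by rw [hmc]; exact le_min (hx _) (hx _)
  set p : ℝ := tot m with hp
  have hp34 : 3 / 4 ≤ p := by
    have hsm : m.coeff.support ⊆ Y := by
      intro y hy
      by_contra hyY
      rw [hY, Finset.mem_union, not_or, Finsupp.notMem_support_iff, Finsupp.notMem_support_iff,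
        coeff_mul_single_apply, mul_one] at hyY
      rw [Finsupp.mem_support_iff, hmc, hyY.1, hyY.2, min_self] at hy
      exact hy rfl
    have hsd : (x - x * single g (1 : ℝ)).coeff.support ⊆ Y := by
      intro y hy
      by_contra hyY
      rw [hY, Finset.mem_union, not_or, Finsupp.notMem_support_iff, Finsupp.notMem_support_iff] at hyY
      rw [Finsupp.mem_support_iff, coeff_sub, Finsupp.sub_apply, hyY.1, hyY.2, sub_zero] at hy
      exact hy rfl
    have h1 : nrm (x - x * single g (1 : ℝ)) = ∑ y ∈ Y, |x.coeff y - x.coeff (y + -g)| := by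
      rw [nrm_eq _ hsd]
      apply Finset.sum_congr rfl
      intro y _
      rw [coeff_sub, Finsupp.sub_apply, coeff_mul_single_apply, mul_one]
    have h2 : tot x = ∑ y ∈ Y, x.coeff y := tot_eq _ subset_union_left
    have h3 : tot (x * single g (1 : ℝ)) = ∑ y ∈ Y, x.coeff (y + -g) := by
      rw [tot_eq _ subset_union_right]
      apply Finset.sum_congr rfl
      intro y _
      rw [coeff_mul_single_apply, mul_one]
    rw [tot_mul_single, mul_one] at h3
    have h4 : p = ∑ y ∈ Y, min (x.coeff y) (x.coeff (y + -g)) := by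
      rw [hp, tot_eq _ hsm]
      exact Finset.sum_congr rfl fun y _ => hmc y
    have h5 : 2 * p = tot x + tot x - nrm (x - x * single g (1 : ℝ)) := by
      rw [h4, h1]
      conv_rhs => rw [h2]
      rw [← h2]
      nth_rewrite 2 [h3]
      rw [h2, ← Finset.sum_add_distrib, ← Finset.sum_sub_distrib, Finset.mul_sum]
      apply Finset.sum_congr rfl
      intro y _
      rcases le_total (x.coeff y) (x.coeff (y + -g)) with h | h
      · rw [min_eq_left h, abs_of_nonpos (by linarith)]; ring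
      · rw [min_eq_right h, abs_of_nonneg (by linarith)]; ring
    rw [hx1] at h5
    linarith
  set ρ : AddMonoidAlgebra ℝ G := (1 / 2 : ℝ) • (m * (1 + single (-g) (1 : ℝ))) with hρ
  set lam : AddMonoidAlgebra ℝ G := x - ρ with hlam
  have hρc : ∀ y, ρ.coeff y = 1 / 2 * (m.coeff y + m.coeff (y + g)) := by
    intro y
    rw [hρ, coeff_smul, Finsupp.smul_apply, mul_add, mul_one, coeff_add, Finsupp.add_apply,
      coeff_mul_single_apply, mul_one, neg_neg, smul_eq_mul]
  have hlamn : Nn lam := by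
    intro y
    rw [hlam, coeff_sub, Finsupp.sub_apply, hρc]
    have := hmx y
    have := hmx2 y
    linarith
  have hρt : tot ρ = p := by
    rw [hρ, tot_smul, mul_add, mul_one, tot_add, tot_mul_single, mul_one]
    ring
  have hlamt : nrm lam = 1 - p := by
    rw [nrm_of_nn hlamn]
    have h1 : x = lam + ρ := by rw [hlam]; abel
    have h2 := tot_add lam ρ
    rw [← h1, hx1, hρt] at h2
    linarith
  have hp1 : p ≤ 1 := by
    have := nrm_nonneg lam
    rw [hlamt] at this
    linarith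
  have hnm : nrm m = p := nrm_of_nn hmn
  -- powers of `ρ`
  have hρk : ∀ k : ℕ, nrm (ρ ^ k * (1 - single g (1 : ℝ))) ≤ p ^ k * (2 / Real.sqrt ((k : ℝ) + 1)) := by
    intro k
    have e0 : (single (-g) (1 : ℝ) : AddMonoidAlgebra ℝ G) * single g (1 : ℝ) = 1 := by
      rw [single_mul_single, neg_add_cancel, one_mul, AddMonoidAlgebra.one_def]
    have e1 : ρ ^ k * (1 - single g (1 : ℝ)) = (1 / 2 : ℝ) ^ k • (m ^ k *
        (((1 + single (-g) (1 : ℝ)) ^ k * (single (-g) (1 : ℝ) - 1)) * single g (1 : ℝ))) := by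
      rw [hρ, smul_pow, mul_pow, smul_mul_assoc, mul_assoc, mul_assoc]
      congr 3
      rw [sub_mul, e0, one_mul]
    rw [e1, nrm_smul, abs_of_nonneg (by positivity)]
    have h1 : nrm (m ^ k * (((1 + single (-g) (1 : ℝ)) ^ k * (single (-g) (1 : ℝ) - 1)) *
        single g (1 : ℝ))) ≤ p ^ k * (2 ^ (k + 1) / Real.sqrt ((k : ℝ) + 1)) := by
      refine (nrm_mul _ _).trans ?_
      apply mul_le_mul
      · rw [← hnm]; exact nrm_pow _ _
      · rw [nrm_mul_single, abs_one, mul_one]
        exact nrm_binom _ _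
      · exact nrm_nonneg _
      · have : 0 ≤ p := by linarith
        positivity
    calc (1 / 2 : ℝ) ^ k * nrm (m ^ k * (((1 + single (-g) (1 : ℝ)) ^ k * (single (-g) (1 : ℝ) - 1)) *
        single g (1 : ℝ))) ≤ (1 / 2 : ℝ) ^ k * (p ^ k * (2 ^ (k + 1) / Real.sqrt ((k : ℝ) + 1))) := by
          gcongr
      _ = p ^ k * (2 / Real.sqrt ((k : ℝ) + 1)) := by
          have : (1 / 2 : ℝ) ^ k * 2 ^ (k + 1) = 2 := by
            rw [pow_succ, ← mul_assoc, ← mul_pow]; norm_num
          calc _ = p ^ k * (((1 / 2 : ℝ) ^ k * 2 ^ (k + 1)) / Real.sqrt ((k : ℝ) + 1)) := by ring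
            _ = _ := by rw [this]
  have hxN : x ^ N * (1 - single g (1 : ℝ)) = ∑ k ∈ range (N + 1),
      (N.choose k : ℝ) • (lam ^ (N - k) * (ρ ^ k * (1 - single g (1 : ℝ)))) := by
    have h1 : x = ρ + lam := by rw [hlam]; abel
    conv_lhs => rw [h1, add_pow, Finset.sum_mul]
    apply Finset.sum_congr rfl
    intro k _
    rw [Nat.cast_smul_eq_nsmul, nsmul_eq_mul]
    ring
  rw [hxN]
  refine (nrm_sum _ _).trans ?_
  have h6 : ∀ k ∈ range (N + 1), nrm ((N.choose k : ℝ) • (lam ^ (N - k) *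
      (ρ ^ k * (1 - single g (1 : ℝ))))) ≤
      2 * (p ^ k * (1 - p) ^ (N - k) * (N.choose k : ℝ) * (1 / Real.sqrt ((k : ℝ) + 1))) := by
    intro k _
    rw [nrm_smul, abs_of_nonneg (by positivity)]
    have h7 : nrm (lam ^ (N - k) * (ρ ^ k * (1 - single g (1 : ℝ)))) ≤
        (1 - p) ^ (N - k) * (p ^ k * (2 / Real.sqrt ((k : ℝ) + 1))) := by
      refine (nrm_mul _ _).trans ?_
      apply mul_le_mul
      · rw [← hlamt]; exact nrm_pow _ _
      · exact hρk k
      · exact nrm_nonneg _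
      · exact pow_nonneg (by linarith) _
    calc (N.choose k : ℝ) * nrm (lam ^ (N - k) * (ρ ^ k * (1 - single g (1 : ℝ)))) ≤
        (N.choose k : ℝ) * ((1 - p) ^ (N - k) * (p ^ k * (2 / Real.sqrt ((k : ℝ) + 1)))) := by gcongr
      _ = _ := by ring
  refine (Finset.sum_le_sum h6).trans ?_
  rw [← Finset.mul_sum]
  have h8 := binom_inv_sqrt N (p := p) (q := 1 - p) (by linarith) (by linarith) (by ring)
  have h9 : 1 / Real.sqrt (p * ((N : ℝ) + 1)) ≤ (3 / 2) / Real.sqrt ((N : ℝ) + 1) := by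
    rw [div_le_div_iff₀ (by positivity) (by positivity), one_mul]
    apply Real.sqrt_le_iff.2
    constructor
    · positivity
    · rw [mul_pow, Real.sq_sqrt (by positivity)]
      nlinarith
  calc 2 * ∑ k ∈ range (N + 1), p ^ k * (1 - p) ^ (N - k) * (N.choose k : ℝ) *
        (1 / Real.sqrt ((k : ℝ) + 1)) ≤ 2 * ((3 / 2) / Real.sqrt ((N : ℝ) + 1)) := by
        gcongr
        exact h8.trans h9
    _ = 3 / Real.sqrt ((N : ℝ) + 1) := by ring

end Pool.Agent.KS6_25.AB
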