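import Pool.Agent.KS6_25.AB.A1

/-!
# Entropy: a subfamily which absorbs all the others
-/

set_option autoImplicit false
set_option linter.unusedSectionVars false

namespace Pool.Agent.KS6_25.AB

open Finset AddMonoidAlgebra

variable {G : Type*} [AddCommGroup G]

/-- Shannon entropy of the coefficients -/
noncomputable def ent (x : AddMonoidAlgebra ℝ G) : ℝ :=
  ∑ y ∈ x.coeff.support, Real.negMulLog (x.coeff y)

theorem ent_eq (x : AddMonoidAlgebra ℝ G) {Y : Finset G} (h : x.coeff.support ⊆ Y) :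
    ent x = ∑ y ∈ Y, Real.negMulLog (x.coeff y) := by
  unfold ent
  apply Finset.sum_subset h
  intro y _ hy
  rw [Finsupp.notMem_support_iff.1 hy, Real.negMulLog_zero]

theorem ent_mul_single (x : AddMonoidAlgebra ℝ G) (g : G) : ent (x * single g 1) = ent x := by
  classical
  have h1 : (x * single g (1 : ℝ)).coeff.support ⊆ x.coeff.support.image (fun y => y + g) := by
    intro y hy
    rw [Finsupp.mem_support_iff, coeff_mul_single_apply] at hy
    rw [Finset.mem_image]
    refine ⟨y + -g, ?_, by abel⟩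
    rw [Finsupp.mem_support_iff]
    exact left_ne_zero_of_mul hy
  rw [ent_eq _ h1, ent, Finset.sum_image (by intro a _ b _ h; exact add_right_cancel h)]
  apply Finset.sum_congr rfl
  intro y _
  rw [coeff_mul_single_apply, mul_one]
  congr 2
  abel

/-- `a log (m / a) ≤ 2 (√(a m) - a)` -/
theorem log_aux {a m : ℝ} (ha : 0 ≤ a) (hm : 0 < m) :
    a * Real.log m - a * Real.log a ≤ 2 * (Real.sqrt a * Real.sqrt m - a) := by
  rcases ha.eq_or_lt with h | h
  · rw [← h]; simp
  · have h1 : Real.log (Real.sqrt (m / a)) ≤ Real.sqrt (m / a) - 1 :=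
      Real.log_le_sub_one_of_pos (by positivity)
    rw [Real.log_sqrt (by positivity), Real.log_div hm.ne' h.ne'] at h1
    have h2 : Real.sqrt (m / a) * a = Real.sqrt a * Real.sqrt m := by
      rw [Real.sqrt_div hm.le]
      have h3 : Real.sqrt a * Real.sqrt a = a := Real.mul_self_sqrt h.le
      have h4 : 0 < Real.sqrt a := Real.sqrt_pos.2 h
      field_simp
      nlinarith [h3]
    nlinarith [mul_le_mul_of_nonneg_left h1 h.le]

/-- strong concavity of the entropy function, with the Hellinger distance -/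
theorem hell {a b : ℝ} (ha : 0 ≤ a) (hb : 0 ≤ b) :
    (Real.sqrt a - Real.sqrt b) ^ 2 / 4 ≤
      Real.negMulLog ((a + b) / 2) - (Real.negMulLog a + Real.negMulLog b) / 2 := by
  rcases (add_nonneg ha hb).eq_or_lt with h | h
  · have h1 : a = 0 := by linarith
    have h2 : b = 0 := by linarith
    subst h1 h2
    simp
  set m : ℝ := (a + b) / 2 with hm
  have hm0 : 0 < m := by rw [hm]; linarith
  have h1 := log_aux ha hm0
  have h2 := log_aux hb hm0
  have h3 : Real.negMulLog m - (Real.negMulLog a + Real.negMulLog b) / 2 =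
      -((a * Real.log m - a * Real.log a) + (b * Real.log m - b * Real.log b)) / 2 := by
    unfold Real.negMulLog
    rw [hm]
    ring
  rw [h3]
  have hsa : Real.sqrt a * Real.sqrt a = a := Real.mul_self_sqrt ha
  have hsb : Real.sqrt b * Real.sqrt b = b := Real.mul_self_sqrt hb
  have hsm : Real.sqrt m * Real.sqrt m = m := Real.mul_self_sqrt hm0.le
  have hm2 : 2 * m = a + b := by rw [hm]; ring
  set u := Real.sqrt a
  set v := Real.sqrt b
  set w := Real.sqrt m
  have hu : 0 ≤ u := Real.sqrt_nonneg _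
  have hv : 0 ≤ v := Real.sqrt_nonneg _
  have hw : 0 < w := Real.sqrt_pos.2 hm0
  -- `2 m - w (u + v) ≥ (u - v)² / 4`
  have h4 : (u - v) ^ 2 = 4 * w ^ 2 - (u + v) ^ 2 := by nlinarith
  have h5 : u + v ≤ 2 * w := by
    apply le_of_sq_le_sq _ (by positivity)
    nlinarith [sq_nonneg (u - v)]
  nlinarith [mul_nonneg (sub_nonneg.2 h5) hw.le, mul_nonneg (sub_nonneg.2 h5) (add_nonneg hu hv), mul_nonneg (sub_nonneg.2 h5) (sub_nonneg.2 h5)]

/-- if averaging over a shift increases the entropy by little, the shift changes little -/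
theorem nrm_le_ent (x : AddMonoidAlgebra ℝ G) (hx : Nn x) (hx1 : tot x = 1) (g : G)
    (h : ent ((1 / 2 : ℝ) • (x + x * single g 1)) - ent x ≤ 1 / 64) :
    nrm (x - x * single g 1) ≤ 1 / 2 := by
  classical
  set Y : Finset G := x.coeff.support ∪ (x * single g (1 : ℝ)).coeff.support with hY
  have hsub : ∀ z : AddMonoidAlgebra ℝ G, (∀ y, x.coeff y = 0 → x.coeff (y + -g) = 0 → z.coeff y = 0) →
      z.coeff.support ⊆ Y := by
    intro z hz y hy
    by_contra hyY
    rw [hY, Finset.mem_union, not_or, Finsupp.notMem_support_iff, Finsupp.notMem_support_iff,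
      coeff_mul_single_apply, mul_one] at hyY
    exact Finsupp.mem_support_iff.1 hy (hz y hyY.1 hyY.2)
  have e1 : ent ((1 / 2 : ℝ) • (x + x * single g 1)) =
      ∑ y ∈ Y, Real.negMulLog ((x.coeff y + x.coeff (y + -g)) / 2) := by
    rw [ent_eq _ (Y := Y)]
    · apply Finset.sum_congr rfl
      intro y _
      rw [coeff_smul, Finsupp.smul_apply, coeff_add, Finsupp.add_apply, coeff_mul_single_apply, mul_one,
        smul_eq_mul]
      congr 1
      ring
    · apply hsub
      intro y h1 h2
      rw [coeff_smul, Finsupp.smul_apply, coeff_add, Finsupp.add_apply, coeff_mul_single_apply, mul_one,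
        h1, h2, add_zero, smul_zero]
  have e2 : ent x = ∑ y ∈ Y, Real.negMulLog (x.coeff y) := ent_eq _ subset_union_left
  have e3 : ent x = ∑ y ∈ Y, Real.negMulLog (x.coeff (y + -g)) := by
    rw [← ent_mul_single x g, ent_eq _ (Y := Y) subset_union_right]
    apply Finset.sum_congr rfl
    intro y _
    rw [coeff_mul_single_apply, mul_one]
  have e4 : nrm (x - x * single g (1 : ℝ)) = ∑ y ∈ Y, |x.coeff y - x.coeff (y + -g)| := by
    rw [nrm_eq _ (Y := Y)]
    · apply Finset.sum_congr rfl
      intro y _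
      rw [coeff_sub, Finsupp.sub_apply, coeff_mul_single_apply, mul_one]
    · apply hsub
      intro y h1 h2
      rw [coeff_sub, Finsupp.sub_apply, coeff_mul_single_apply, mul_one, h1, h2, sub_zero]
  have e5 : ∑ y ∈ Y, x.coeff y = 1 := by rw [← hx1]; exact (tot_eq _ subset_union_left).symm
  have e6 : ∑ y ∈ Y, x.coeff (y + -g) = 1 := by
    have h3 : tot (x * single g (1 : ℝ)) = ∑ y ∈ Y, x.coeff (y + -g) := by
      rw [tot_eq _ subset_union_right]
      apply Finset.sum_congr rfl
      intro y _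
      rw [coeff_mul_single_apply, mul_one]
    rw [← h3, tot_mul_single, mul_one, hx1]
  -- Hellinger distance
  have h1 : ∑ y ∈ Y, (Real.sqrt (x.coeff y) - Real.sqrt (x.coeff (y + -g))) ^ 2 ≤ 1 / 16 := by
    have h2 : ∑ y ∈ Y, (Real.sqrt (x.coeff y) - Real.sqrt (x.coeff (y + -g))) ^ 2 / 4 ≤
        ∑ y ∈ Y, (Real.negMulLog ((x.coeff y + x.coeff (y + -g)) / 2) -
          (Real.negMulLog (x.coeff y) + Real.negMulLog (x.coeff (y + -g))) / 2) :=
      Finset.sum_le_sum fun y _ => hell (hx _) (hx _)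
    rw [Finset.sum_sub_distrib, ← Finset.sum_div, ← Finset.sum_div, Finset.sum_add_distrib, ← e1, ← e2,
      ← e3] at h2
    linarith
  have h2 : ∑ y ∈ Y, (Real.sqrt (x.coeff y) + Real.sqrt (x.coeff (y + -g))) ^ 2 ≤ 4 := by
    calc _ ≤ ∑ y ∈ Y, (2 * x.coeff y + 2 * x.coeff (y + -g)) := by
          apply Finset.sum_le_sum
          intro y _
          have ha := Real.sq_sqrt (hx y)
          have hb := Real.sq_sqrt (hx (y + -g))
          nlinarith [sq_nonneg (Real.sqrt (x.coeff y) - Real.sqrt (x.coeff (y + -g)))]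
      _ = 4 := by
          rw [Finset.sum_add_distrib, ← Finset.mul_sum, ← Finset.mul_sum, e5, e6]
          norm_num
  have h3 : (∑ y ∈ Y, |x.coeff y - x.coeff (y + -g)|) ^ 2 ≤
      (∑ y ∈ Y, (Real.sqrt (x.coeff y) - Real.sqrt (x.coeff (y + -g))) ^ 2) *
      ∑ y ∈ Y, (Real.sqrt (x.coeff y) + Real.sqrt (x.coeff (y + -g))) ^ 2 := by
    apply Finset.sum_sq_le_sum_mul_sum_of_sq_le_mul
    · intro y _; positivity
    · intro y _; positivity
    · intro y _
      rw [sq_abs, ← mul_pow]
      apply le_of_eq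
      congr 1
      have ha := Real.mul_self_sqrt (hx y)
      have hb := Real.mul_self_sqrt (hx (y + -g))
      nlinarith
  rw [e4]
  have h4 : (∑ y ∈ Y, |x.coeff y - x.coeff (y + -g)|) ^ 2 ≤ (1 / 2) ^ 2 := by
    refine h3.trans ?_
    have h5 : 0 ≤ ∑ y ∈ Y, (Real.sqrt (x.coeff y) - Real.sqrt (x.coeff (y + -g))) ^ 2 :=
      Finset.sum_nonneg fun _ _ => by positivity
    nlinarith
  exact (pow_le_pow_iff_left₀ (Finset.sum_nonneg fun _ _ => abs_nonneg _) (by norm_num) two_ne_zero).1 h4

/-- entropy and the size of the support -/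
theorem ent_le_log (x : AddMonoidAlgebra ℝ G) (hx : Nn x) (hx1 : tot x = 1) {Y : Finset G}
    (h : x.coeff.support ⊆ Y) : ent x ≤ Real.log Y.card := by
  have hY0 : 0 < Y.card := by
    rw [Finset.card_pos]
    by_contra h0
    rw [Finset.not_nonempty_iff_eq_empty] at h0
    rw [tot_eq _ h, h0, Finset.sum_empty] at hx1
    exact zero_ne_one hx1
  have hY : (0 : ℝ) < Y.card := by exact_mod_cast hY0
  have h1 : ∀ y ∈ Y, Real.negMulLog (x.coeff y) ≤
      x.coeff y * Real.log Y.card + (1 / Y.card - x.coeff y) := by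
    intro y _
    rcases (hx y).eq_or_lt with h0 | h0
    · rw [← h0]
      simp
    · have h2 : Real.log (1 / (Y.card * x.coeff y)) ≤ 1 / (Y.card * x.coeff y) - 1 :=
        Real.log_le_sub_one_of_pos (by positivity)
      rw [Real.log_div one_ne_zero (by positivity), Real.log_one, Real.log_mul hY.ne' h0.ne'] at h2
      have h3 := mul_le_mul_of_nonneg_left h2 h0.le
      have h4 : x.coeff y * (1 / (Y.card * x.coeff y) - 1) = 1 / Y.card - x.coeff y := by
        field_simp
      rw [h4] at h3
      unfold Real.negMulLog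
      linarith
  rw [ent_eq _ h]
  refine (Finset.sum_le_sum h1).trans ?_
  rw [Finset.sum_add_distrib, ← Finset.sum_mul, ← tot_eq _ h, hx1, Finset.sum_sub_distrib,
    ← tot_eq _ h, hx1, Finset.sum_const, nsmul_eq_mul, mul_one_div, div_self hY.ne']
  linarith

end Pool.Agent.KS6_25.AB
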