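import Mathlib

/-!
# A level set which is almost invariant under many shifts
-/

set_option autoImplicit false

namespace Pool.Agent.KS6_25.AB

open Finset

/-- If the total variation of `r` under the shifts `g i`, `i ∈ J`, is at most `σ ∑ r`, then some
level set has a boundary of size at most `σ |E|` under all the shifts together. -/
theorem layer {G ι : Type*} [AddCommGroup G] [DecidableEq G] (r : G → ℕ) (Y : Finset G)
    (hY : ∀ y, y ∉ Y → r y = 0) (hpos : ∃ y, 0 < r y) (J : Finset ι) (g : ι → G) (σ : ℝ) (hσ0 : 0 ≤ σ)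
    (hσ : (((∑ i ∈ J, ∑ y ∈ Y, (r y - r (y + g i)) : ℕ)) : ℝ) ≤ σ * ((∑ y ∈ Y, r y : ℕ) : ℝ)) :
    ∃ E ⊆ Y, E.Nonempty ∧ (((∑ i ∈ J, (E.filter fun y => y + g i ∉ E).card : ℕ)) : ℝ) ≤ σ * (E.card : ℝ) := by
  classical
  set M : ℕ := Y.sup r with hM
  have hM1 : ∀ y, r y ≤ M := by
    intro y
    by_cases hy : y ∈ Y
    · exact Finset.le_sup hy
    · rw [hY y hy]; exact Nat.zero_le _
  set E : ℕ → Finset G := fun t => Y.filter (fun y => t < r y) with hE
  have h1 : ∑ t ∈ range M, (E t).card = ∑ y ∈ Y, r y := by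
    simp only [hE, Finset.card_filter]
    rw [Finset.sum_comm]
    apply Finset.sum_congr rfl
    intro y _
    rw [← Finset.card_filter]
    have : (range M).filter (fun t => t < r y) = range (r y) := by
      ext t
      simp only [Finset.mem_filter, Finset.mem_range]
      constructor
      · exact fun h => h.2
      · exact fun h => ⟨h.trans_le (hM1 y), h⟩
    rw [this, Finset.card_range]
  have hmemE : ∀ t y, y ∈ E t ↔ t < r y := by
    intro t y
    simp only [hE, Finset.mem_filter]
    constructor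
    · exact fun h => h.2
    · intro h
      refine ⟨?_, h⟩
      by_contra hy
      rw [hY y hy] at h
      exact Nat.not_lt_zero _ h
  have h2 : ∀ i, ∑ t ∈ range M, ((E t).filter fun y => y + g i ∉ E t).card =
      ∑ y ∈ Y, (r y - r (y + g i)) := by
    intro i
    have h3 : ∀ t, (E t).filter (fun y => y + g i ∉ E t) =
        Y.filter (fun y => t < r y ∧ ¬ t < r (y + g i)) := by
      intro t
      ext y
      rw [Finset.mem_filter, hmemE, hmemE, Finset.mem_filter]
      constructor
      · intro h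
        exact ⟨(Finset.mem_filter.1 ((hmemE t y).2 h.1)).1, h⟩
      · exact fun h => h.2
    simp only [h3, Finset.card_filter]
    rw [Finset.sum_comm]
    apply Finset.sum_congr rfl
    intro y _
    rw [← Finset.card_filter]
    have : (range M).filter (fun t => t < r y ∧ ¬ t < r (y + g i)) = Finset.Ico (r (y + g i)) (r y) := by
      ext t
      simp only [Finset.mem_filter, Finset.mem_range, Finset.mem_Ico, not_lt]
      constructor
      · exact fun h => ⟨h.2.2, h.2.1⟩
      · exact fun h => ⟨h.2.trans_le (hM1 y), h.2, h.1⟩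
    rw [this, Nat.card_Ico]
  have h3 : ∑ t ∈ range M, ∑ i ∈ J, ((E t).filter fun y => y + g i ∉ E t).card =
      ∑ i ∈ J, ∑ y ∈ Y, (r y - r (y + g i)) := by
    rw [Finset.sum_comm]
    exact Finset.sum_congr rfl fun i _ => h2 i
  by_contra hcon
  push Not at hcon
  obtain ⟨y0, hy0⟩ := hpos
  have hM0 : 0 < M := hy0.trans_le (hM1 y0)
  have h4 : ∀ t ∈ range M, σ * ((E t).card : ℝ) ≤
      ((∑ i ∈ J, ((E t).filter fun y => y + g i ∉ E t).card : ℕ) : ℝ) := by
    intro t _
    rcases (E t).eq_empty_or_nonempty with h | h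
    · rw [h]; simp
    · exact (hcon (E t) (Finset.filter_subset _ _) h).le
  have h5 : σ * ((E 0).card : ℝ) <
      ((∑ i ∈ J, ((E 0).filter fun y => y + g i ∉ E 0).card : ℕ) : ℝ) :=
    hcon (E 0) (Finset.filter_subset _ _) ⟨y0, (hmemE 0 y0).2 hy0⟩
  have h6 : ∑ t ∈ range M, σ * ((E t).card : ℝ) <
      ∑ t ∈ range M, ((∑ i ∈ J, ((E t).filter fun y => y + g i ∉ E t).card : ℕ) : ℝ) :=
    Finset.sum_lt_sum h4 ⟨0, Finset.mem_range.2 hM0, h5⟩
  rw [← Finset.mul_sum, ← Nat.cast_sum, ← Nat.cast_sum, h1, h3] at h6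
  linarith

end Pool.Agent.KS6_25.AB
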