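import Pool.Graph.R_seed8.H139R2.GP.Resamp

/-!
# Petridis' lemma for many two-element sets
-/

set_option autoImplicit false

namespace Pool.Agent.KS6_25.AB

open Finset H139R2.GP
open scoped Pointwise

section
variable {G ι : Type*} [AddCommGroup G] [DecidableEq G]

/-- the two-element sets at different heights -/
def BB (J : Finset ι) (e : ι → ℤ) (g : ι → G) : Finset (G × ℤ) :=
  J.biUnion fun i => ({0, g i} : Finset G) ×ˢ ({e i} : Finset ℤ)

theorem card_BB (J : Finset ι) (e : ι → ℤ) (he : Function.Injective e) (g : ι → G) (W : Finset G) :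
    (W ×ˢ ({0} : Finset ℤ) + BB J e g).card = ∑ i ∈ J, (W + {0, g i}).card := by
  classical
  have h1 : W ×ˢ ({0} : Finset ℤ) + BB J e g =
      J.biUnion fun i => (W + {0, g i}) ×ˢ ({e i} : Finset ℤ) := by
    ext ⟨y, t⟩
    simp only [Finset.mem_add, BB, Finset.mem_biUnion, Finset.mem_product, Finset.mem_singleton,
      Prod.exists, Prod.mk_add_mk, Prod.mk.injEq]
    constructor
    · rintro ⟨a, b, ⟨ha, rfl⟩, c, d, ⟨i, hi, hc, rfl⟩, h, h'⟩
      exact ⟨i, hi, ⟨a, ha, c, hc, h⟩, by rw [← h']; ring⟩
    · rintro ⟨i, hi, ⟨a, ha, c, hc, h⟩, rfl⟩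
      exact ⟨a, 0, ⟨ha, rfl⟩, c, e i, ⟨i, hi, hc, rfl⟩, h, by ring⟩
  rw [h1, Finset.card_biUnion]
  · apply Finset.sum_congr rfl
    intro i _
    rw [Finset.card_product, Finset.card_singleton, mul_one]
  · intro i _ j _ hij
    rw [Function.onFun, Finset.disjoint_left]
    rintro ⟨y, t⟩ h2 h3
    rw [Finset.mem_product, Finset.mem_singleton] at h2 h3
    exact hij (he (h2.2.symm.trans h3.2))

theorem prod_add_prod (C X : Finset G) :
    C ×ˢ ({0} : Finset ℤ) + X ×ˢ ({0} : Finset ℤ) = (C + X) ×ˢ ({0} : Finset ℤ) := by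
  ext ⟨y, t⟩
  simp only [Finset.mem_add, Finset.mem_product, Finset.mem_singleton, Prod.exists, Prod.mk_add_mk,
    Prod.mk.injEq]
  constructor
  · rintro ⟨a, b, ⟨ha, rfl⟩, c, d, ⟨hc, rfl⟩, h, rfl⟩
    exact ⟨⟨a, ha, c, hc, h⟩, by ring⟩
  · rintro ⟨⟨a, ha, c, hc, h⟩, rfl⟩
    exact ⟨a, 0, ⟨ha, rfl⟩, c, 0, ⟨hc, rfl⟩, h, by ring⟩

/-- weighted form of the lemma of Petridis -/
theorem wpet (J : Finset ι) (e : ι → ℤ) (he : Function.Injective e) (g : ι → G) (X : Finset G)
    (hmin : ∀ X' ⊆ X, (∑ i ∈ J, (X + {0, g i}).card) * X'.card ≤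
      (∑ i ∈ J, (X' + {0, g i}).card) * X.card) (C : Finset G) :
    (∑ i ∈ J, (C + X + {0, g i}).card) * X.card ≤ (∑ i ∈ J, (X + {0, g i}).card) * (C + X).card := by
  classical
  have h := Finset.pluennecke_petridis_inequality_add (A := X ×ˢ ({0} : Finset ℤ)) (B := BB J e g)
    (C ×ˢ ({0} : Finset ℤ)) (by
      intro A' hA'
      have hA2 : A' = (A'.image Prod.fst) ×ˢ ({0} : Finset ℤ) := by
        ext ⟨y, t⟩
        simp only [Finset.mem_product, Finset.mem_image, Prod.exists, exists_and_right,
          exists_eq_right, Finset.mem_singleton]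
        constructor
        · intro h
          have := hA' h
          rw [Finset.mem_product, Finset.mem_singleton] at this
          exact ⟨⟨t, h⟩, this.2⟩
        · rintro ⟨⟨s, hs⟩, rfl⟩
          have := hA' hs
          rw [Finset.mem_product, Finset.mem_singleton] at this
          have h3 : s = 0 := this.2
          rw [← h3]; exact hs
      have hsub : A'.image Prod.fst ⊆ X := by
        intro y hy
        obtain ⟨p, hp, rfl⟩ := Finset.mem_image.1 hy
        exact (Finset.mem_product.1 (hA' hp)).1
      rw [hA2, card_BB J e he g, card_BB J e he g, Finset.card_product, Finset.card_product,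
        Finset.card_singleton, mul_one, mul_one]
      exact hmin _ hsub)
  rw [prod_add_prod, card_BB J e he g, card_BB J e he g, Finset.card_product, Finset.card_product,
    Finset.card_singleton, mul_one, mul_one] at h
  exact h

theorem sums_insert' [DecidableEq ι] (g : ι → G) (i : ι) (S : Finset ι) (hi : i ∉ S) :
    sums g (insert i S) = sums g S + {0, g i} := by
  ext y
  rw [mem_sums, Finset.mem_add]
  constructor
  · rintro ⟨T, hT, rfl⟩
    by_cases h : i ∈ T
    · refine ⟨∑ j ∈ T.erase i, g j, (mem_sums _ _ _).2 ⟨T.erase i, ?_, rfl⟩, g i, by simp, ?_⟩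
      · intro j hj
        have h1 := Finset.mem_of_mem_erase hj
        have h2 := Finset.ne_of_mem_erase hj
        exact (Finset.mem_insert.1 (hT h1)).resolve_left h2
      · rw [Finset.sum_erase_add _ _ h]
    · refine ⟨∑ j ∈ T, g j, (mem_sums _ _ _).2 ⟨T, ?_, rfl⟩, 0, by simp, by rw [add_zero]⟩
      intro j hj
      refine (Finset.mem_insert.1 (hT hj)).resolve_left ?_
      rintro rfl
      exact h hj
  · rintro ⟨a, ha, b, hb, rfl⟩
    obtain ⟨T, hT, rfl⟩ := (mem_sums _ _ _).1 ha
    rw [Finset.mem_insert, Finset.mem_singleton] at hb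
    rcases hb with rfl | rfl
    · exact ⟨T, hT.trans (Finset.subset_insert _ _), by rw [add_zero]⟩
    · refine ⟨insert i T, Finset.insert_subset_insert _ hT, ?_⟩
      rw [Finset.sum_insert (fun h => hi (hT h)), add_comm]

theorem sums_empty' (g : ι → G) : sums g ∅ = {0} := by
  ext y
  rw [mem_sums, Finset.mem_singleton]
  constructor
  · rintro ⟨T, hT, rfl⟩
    rw [Finset.subset_empty.1 hT, Finset.sum_empty]
  · rintro rfl
    exact ⟨∅, subset_rfl, by simp⟩

/-- **The Plünnecke inequality for many two-element sets** (with a logarithm) -/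
theorem plu (J : Finset ι) (e : ι → ℤ) (he : Function.Injective e) (g : ι → G) (E : Finset G)
    (hE : E.Nonempty) (σ : ℝ) (hσ0 : 0 ≤ σ)
    (hσ : ((∑ i ∈ J, (E.filter fun y => y + g i ∉ E).card : ℕ) : ℝ) ≤ σ * (E.card : ℝ)) :
    ∃ X ⊆ E, X.Nonempty ∧
      ((sums g J + X).card : ℝ) ≤ Real.exp (σ * (1 + Real.log J.card)) * X.card := by
  classical
  -- a minimiser
  set k : Finset G → ℕ := fun W => ∑ i ∈ J, (W + {0, g i}).card with hk
  obtain ⟨X, hX, hXmin⟩ := Finset.exists_min_image (E.powerset.filter (fun W => W.Nonempty))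
    (fun W => (k W : ℝ) / W.card) ⟨E, by simp [hE]⟩
  rw [Finset.mem_filter, Finset.mem_powerset] at hX
  obtain ⟨hXE, hX0⟩ := hX
  have hXc : (0 : ℝ) < X.card := by exact_mod_cast Finset.card_pos.2 hX0
  have hEc : (0 : ℝ) < E.card := by exact_mod_cast Finset.card_pos.2 hE
  have hmin : ∀ X' ⊆ X, k X * X'.card ≤ k X' * X.card := by
    intro X' hX'
    rcases X'.eq_empty_or_nonempty with rfl | h0
    · simp
    · have h1 := hXmin X' (by
        rw [Finset.mem_filter, Finset.mem_powerset]
        exact ⟨hX'.trans hXE, h0⟩)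
      have h2 : (0 : ℝ) < X'.card := by exact_mod_cast Finset.card_pos.2 h0
      rw [div_le_div_iff₀ hXc h2] at h1
      exact_mod_cast h1
  have hkE : (k E : ℝ) ≤ (J.card + σ) * E.card := by
    have h1 : k E ≤ J.card * E.card + ∑ i ∈ J, (E.filter fun y => y + g i ∉ E).card := by
      rw [hk, ← smul_eq_mul (J.card) E.card, ← Finset.sum_const, ← Finset.sum_add_distrib]
      apply Finset.sum_le_sum
      intro i _
      have h2 : E + {0, g i} ⊆ E ∪ (E.filter fun y => y + g i ∉ E).image (fun y => y + g i) := by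
        intro y hy
        obtain ⟨a, ha, b, hb, rfl⟩ := Finset.mem_add.1 hy
        rw [Finset.mem_insert, Finset.mem_singleton] at hb
        rw [Finset.mem_union]
        rcases hb with rfl | rfl
        · left; rwa [add_zero]
        · by_cases h : a + g i ∈ E
          · left; exact h
          · right
            exact Finset.mem_image.2 ⟨a, Finset.mem_filter.2 ⟨ha, h⟩, rfl⟩
      exact (Finset.card_le_card h2).trans ((Finset.card_union_le _ _).trans
        (Nat.add_le_add_left Finset.card_image_le _))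
    have h3 : (k E : ℝ) ≤ J.card * E.card +
        ((∑ i ∈ J, (E.filter fun y => y + g i ∉ E).card : ℕ) : ℝ) := by exact_mod_cast h1
    linarith
  have hkX : (k X : ℝ) ≤ (J.card + σ) * X.card := by
    have h1 := hXmin E (by
      rw [Finset.mem_filter, Finset.mem_powerset]
      exact ⟨subset_rfl, hE⟩)
    have h2 : (k E : ℝ) / E.card ≤ J.card + σ := by rwa [div_le_iff₀ hEc]
    have h3 := h1.trans h2
    rwa [div_le_iff₀ hXc] at h3
  have hC : ∀ C : Finset G, ((∑ i ∈ J, (C + X + {0, g i}).card : ℕ) : ℝ) ≤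
      (J.card + σ) * (C + X).card := by
    intro C
    have h1 := wpet J e he g X hmin C
    have h2 : ((∑ i ∈ J, (C + X + {0, g i}).card : ℕ) : ℝ) * X.card ≤ (k X : ℝ) * (C + X).card := by
      exact_mod_cast h1
    have h3 : (k X : ℝ) * (C + X).card ≤ ((J.card + σ) * X.card) * (C + X).card := by gcongr
    have h4 := h2.trans h3
    nlinarith
  refine ⟨X, hXE, hX0, ?_⟩
  -- add the generators one by one
  have key : ∀ h : ℕ, h ≤ J.card → ∃ S ⊆ J, S.card = h ∧
      ((sums g S + X).card : ℝ) ≤
        Real.exp (σ * ∑ t ∈ range h, 1 / ((J.card : ℝ) - t)) * X.card := by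
    intro h
    induction h with
    | zero =>
      intro _
      refine ⟨∅, Finset.empty_subset _, rfl, ?_⟩
      rw [sums_empty']
      simp
    | succ h ih =>
      intro hh
      obtain ⟨S, hS, hSc, hSX⟩ := ih (by omega)
      set R := J \ S with hR
      have hRc : R.card = J.card - h := by rw [hR, Finset.card_sdiff_of_subset hS, hSc]
      have hRpos : (0 : ℝ) < R.card := by
        have : 0 < R.card := by omega
        exact_mod_cast this
      have hRr : (R.card : ℝ) = (J.card : ℝ) - h := by
        rw [hRc, Nat.cast_sub (by omega)]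
      obtain ⟨C, hCdef⟩ : ∃ C, C = sums g S := ⟨_, rfl⟩
      rw [← hCdef] at hSX
      -- one generator with a small increment
      obtain ⟨i, hiR, hi⟩ : ∃ i ∈ R, ((C + X + {0, g i}).card : ℝ) ≤
          (1 + σ / R.card) * (C + X).card := by
        by_contra hcon
        push Not at hcon
        have h1 : ∑ i ∈ R, (1 + σ / R.card) * ((C + X).card : ℝ) <
            ∑ i ∈ R, ((C + X + {0, g i}).card : ℝ) := by
          apply Finset.sum_lt_sum_of_nonempty
          · rw [← Finset.card_pos]; exact_mod_cast hRpos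
          · exact hcon
        have h2 : ∑ i ∈ S, ((C + X).card : ℝ) ≤ ∑ i ∈ S, ((C + X + {0, g i}).card : ℝ) := by
          apply Finset.sum_le_sum
          intro i _
          have : (C + X).card ≤ (C + X + {0, g i}).card := by
            apply Finset.card_le_card
            intro y hy
            exact Finset.mem_add.2 ⟨y, hy, 0, by simp, by rw [add_zero]⟩
          exact_mod_cast this
        have h3 := hC C
        rw [Nat.cast_sum, ← Finset.sum_sdiff hS] at h3
        rw [Finset.sum_const, nsmul_eq_mul] at h1 h2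
        have h4 : (R.card : ℝ) * ((1 + σ / R.card) * ((C + X).card : ℝ)) =
            (R.card + σ) * (C + X).card := by
          field_simp
        rw [h4] at h1
        have h5 : (R.card : ℝ) + S.card = J.card := by
          rw [hRr, hSc]; ring
        have h6 : (R.card + σ) * ((C + X).card : ℝ) + (S.card : ℝ) * (C + X).card =
            (J.card + σ) * (C + X).card := by rw [← h5]; ring
        linarith
      have hiJ : i ∈ J := (Finset.mem_sdiff.1 hiR).1
      have hiS : i ∉ S := (Finset.mem_sdiff.1 hiR).2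
      refine ⟨insert i S, Finset.insert_subset hiJ hS, by rw [Finset.card_insert_of_notMem hiS, hSc], ?_⟩
      rw [sums_insert' g i S hiS, ← hCdef]
      have e1 : C + {0, g i} + X = C + X + {0, g i} := by
        rw [add_assoc, add_comm {0, g i} X, ← add_assoc]
      rw [e1]
      have h7 : 1 + σ / R.card ≤ Real.exp (σ * (1 / ((J.card : ℝ) - h))) := by
        rw [← hRr, mul_one_div, add_comm]
        exact Real.add_one_le_exp _
      calc ((C + X + {0, g i}).card : ℝ) ≤ (1 + σ / R.card) * (C + X).card := hi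
        _ ≤ Real.exp (σ * (1 / ((J.card : ℝ) - h))) *
            (Real.exp (σ * ∑ t ∈ range h, 1 / ((J.card : ℝ) - t)) * X.card) := by
            gcongr
        _ = _ := by
            rw [← mul_assoc, ← Real.exp_add, Finset.sum_range_succ]
            congr 2
            ring
  obtain ⟨S, hS, hSc, hSX⟩ := key J.card le_rfl
  have hSJ : S = J := Finset.eq_of_subset_of_card_le hS hSc.ge
  rw [hSJ] at hSX
  refine hSX.trans ?_
  apply mul_le_mul_of_nonneg_right _ hXc.le
  apply Real.exp_le_exp.2
  apply mul_le_mul_of_nonneg_left _ hσ0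
  have h8 : ∑ t ∈ range J.card, 1 / ((J.card : ℝ) - t) = (harmonic J.card : ℝ) := by
    rw [harmonic]
    push_cast
    rw [← Finset.sum_range_reflect]
    apply Finset.sum_congr rfl
    intro t ht
    have ht' := Finset.mem_range.1 ht
    have h9 : ((J.card - 1 - t : ℕ) : ℝ) = (J.card : ℝ) - 1 - t := by
      rw [Nat.cast_sub (by omega), Nat.cast_sub (by omega)]
      push_cast
      ring
    rw [h9, one_div]
    congr 1
    ring
  rw [h8]
  exact harmonic_le_one_add_log _

end

end Pool.Agent.KS6_25.AB
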